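import Mathlib

/-!
# The norms of the elements of trace `r` of an imaginary quadratic ring
-/

set_option autoImplicit false

namespace Pool.Agent.H90.CMT

open Finset Polynomial

/-- the coefficient of `√(-d) / 2` -/
def hgt (d : ℕ) (r : ℤ) (k : ℕ) : ℤ := if 4 ∣ d then (k : ℤ) else 2 * k - r % 2

/-- the norm of the `k`-th element -/
def nrm (d : ℕ) (r : ℤ) (k : ℕ) : ℤ := (r ^ 2 + d * hgt d r k ^ 2) / 4

/-- the conditions for `d` and `r` -/
def Dis (d : ℕ) (r : ℤ) : Prop := d % 4 = 3 ∨ (d % 4 = 0 ∧ 0 < d ∧ 2 ∣ r)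

def cA (d : ℕ) : ℤ := if 4 ∣ d then ((d / 4 : ℕ) : ℤ) else d
def cB (d : ℕ) (r : ℤ) : ℤ := if 4 ∣ d then 0 else -(d * (r % 2))
def cC (d : ℕ) (r : ℤ) : ℤ := if 4 ∣ d then (r / 2) ^ 2 else (r ^ 2 + d * (r % 2)) / 4

/-- the polynomial -/
noncomputable def pol (d : ℕ) (r : ℤ) : ℤ[X] := C (cA d) * X ^ 2 + C (cB d r) * X + C (cC d r)

theorem dis_pos {d : ℕ} {r : ℤ} (h : Dis d r) : 3 ≤ d := by
  rcases h with h | ⟨h, h', _⟩ <;> omega

theorem sq_mod_two (r : ℤ) : (r % 2) ^ 2 = r % 2 := by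
  rcases Int.emod_two_eq_zero_or_one r with h | h <;> rw [h] <;> norm_num

theorem four_cC {d : ℕ} {r : ℤ} (h : Dis d r) (h4 : ¬ 4 ∣ d) : 4 * cC d r = r ^ 2 + d * (r % 2) := by
  unfold cC
  rw [if_neg h4]
  have hd : d % 4 = 3 := by
    rcases h with h | ⟨h, _, _⟩
    · exact h
    · omega
  have h5 : (4 : ℤ) ∣ r ^ 2 + d * (r % 2) := by
    obtain ⟨e, he⟩ : ∃ e : ℤ, (d : ℤ) = 4 * e + 3 := ⟨(d : ℤ) / 4, by omega⟩
    rcases Int.emod_two_eq_zero_or_one r with h1 | h1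
    · obtain ⟨s, hs⟩ : ∃ s : ℤ, r = 2 * s := ⟨r / 2, by omega⟩
      rw [h1, hs]
      exact ⟨s ^ 2, by ring⟩
    · obtain ⟨s, hs⟩ : ∃ s : ℤ, r = 2 * s + 1 := ⟨r / 2, by omega⟩
      rw [h1, hs, he]
      exact ⟨s ^ 2 + s + e + 1, by ring⟩
  exact Int.mul_ediv_cancel' h5

theorem cC_even {d : ℕ} {r : ℤ} (h : Dis d r) (h4 : 4 ∣ d) : 4 * cC d r = r ^ 2 := by
  unfold cC
  rw [if_pos h4]
  have h2 : 2 ∣ r := by
    rcases h with h | ⟨_, _, h⟩
    · omega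
    · exact h
  obtain ⟨s, rfl⟩ := h2
  rw [Int.mul_ediv_cancel_left _ (by norm_num)]
  ring

theorem cA_even {d : ℕ} (h4 : 4 ∣ d) : 4 * cA d = d := by
  unfold cA
  rw [if_pos h4]
  omega

/-- `4 (A k² + B k + C) = r² + d n²` -/
theorem four_quad {d : ℕ} {r : ℤ} (h : Dis d r) (k : ℕ) :
    4 * (cA d * (k : ℤ) ^ 2 + cB d r * k + cC d r) = r ^ 2 + d * hgt d r k ^ 2 := by
  by_cases h4 : 4 ∣ d
  · have h1 := cA_even h4
    have h2 := cC_even h h4
    unfold cB hgt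
    rw [if_pos h4, if_pos h4]
    linear_combination h2 + (k : ℤ) ^ 2 * h1
  · have h1 : cA d = d := by unfold cA; rw [if_neg h4]
    have h2 := four_cC h h4
    unfold cB hgt
    rw [if_neg h4, if_neg h4, h1]
    have h3 := sq_mod_two r
    linear_combination h2 - (d : ℤ) * h3

theorem nrm_eq {d : ℕ} {r : ℤ} (h : Dis d r) (k : ℕ) :
    nrm d r k = cA d * (k : ℤ) ^ 2 + cB d r * k + cC d r := by
  unfold nrm
  rw [← four_quad h k, Int.mul_ediv_cancel_left _ (by norm_num)]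

theorem four_nrm {d : ℕ} {r : ℤ} (h : Dis d r) (k : ℕ) : 4 * nrm d r k = r ^ 2 + d * hgt d r k ^ 2 := by
  rw [nrm_eq h, four_quad h]

theorem eval_pol {d : ℕ} {r : ℤ} (h : Dis d r) (k : ℕ) : (pol d r).eval (k : ℤ) = nrm d r k := by
  rw [nrm_eq h]
  unfold pol
  simp

theorem hgt_mono {d : ℕ} {r : ℤ} {k l : ℕ} (hk : 1 ≤ k) (hkl : k < l) : 1 ≤ hgt d r k ∧ hgt d r k < hgt d r l := by
  unfold hgt
  split_ifs
  · omega
  · have := Int.emod_two_eq_zero_or_one r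
    omega

theorem le_hgt {d : ℕ} {r : ℤ} {k : ℕ} (hk : 1 ≤ k) : (k : ℤ) ≤ hgt d r k ∧ hgt d r k ≤ 2 * k := by
  unfold hgt
  split_ifs
  · omega
  · have := Int.emod_two_eq_zero_or_one r
    omega

theorem nrm_lt {d : ℕ} {r : ℤ} (h : Dis d r) {k l : ℕ} (hk : 1 ≤ k) (hkl : k < l) : nrm d r k < nrm d r l := by
  obtain ⟨h1, h2⟩ := hgt_mono (d := d) (r := r) hk hkl
  have h3 := four_nrm h k
  have h4 := four_nrm h l
  have hd : (3 : ℤ) ≤ d := by exact_mod_cast dis_pos h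
  nlinarith [mul_pos (show (0 : ℤ) < d by linarith) (mul_pos (sub_pos.2 h2) (show (0 : ℤ) < hgt d r l + hgt d r k by linarith))]

theorem nrm_inj {d : ℕ} {r : ℤ} (h : Dis d r) {k l : ℕ} (hk : 1 ≤ k) (hl : 1 ≤ l) (hkl : nrm d r k = nrm d r l) :
    k = l := by
  rcases lt_trichotomy k l with h1 | h1 | h1
  · have := nrm_lt h hk h1
    omega
  · exact h1
  · have := nrm_lt h hl h1
    omega

theorem nrm_le_iff {d : ℕ} {r : ℤ} (h : Dis d r) {k l : ℕ} (hk : 1 ≤ k) (hl : 1 ≤ l) :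
    nrm d r k ≤ nrm d r l ↔ k ≤ l := by
  constructor
  · intro h1
    by_contra h2
    have := nrm_lt h hl (not_le.1 h2)
    omega
  · intro h1
    rcases h1.eq_or_lt with h2 | h2
    · rw [h2]
    · exact (nrm_lt h hk h2).le

theorem nrm_ge {d : ℕ} {r : ℤ} (h : Dis d r) {k : ℕ} (hk : 1 ≤ k) : 3 * (k : ℤ) ^ 2 ≤ 4 * nrm d r k := by
  rw [four_nrm h]
  obtain ⟨h1, _⟩ := le_hgt (d := d) (r := r) hk
  have hd : (3 : ℤ) ≤ d := by exact_mod_cast dis_pos h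
  have hk0 : (0 : ℤ) ≤ k := by positivity
  nlinarith [sq_nonneg r, mul_le_mul hd (pow_le_pow_left₀ hk0 h1 2) (by positivity) (by positivity)]

theorem nrm_le {d : ℕ} {r : ℤ} (h : Dis d r) {k : ℕ} (hk : 1 ≤ k) : nrm d r k ≤ r ^ 2 + d * (k : ℤ) ^ 2 := by
  have h3 := four_nrm h k
  obtain ⟨h1, h2⟩ := le_hgt (d := d) (r := r) hk
  have hd : (3 : ℤ) ≤ d := by exact_mod_cast dis_pos h
  have hk0 : (0 : ℤ) ≤ k := by positivity
  have h5 : hgt d r k ^ 2 ≤ (2 * (k : ℤ)) ^ 2 := pow_le_pow_left₀ (by linarith) h2 2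
  nlinarith [sq_nonneg r, mul_le_mul_of_nonneg_left h5 (show (0 : ℤ) ≤ d by linarith)]

theorem nrm_pos {d : ℕ} {r : ℤ} (h : Dis d r) {k : ℕ} (hk : 1 ≤ k) : 0 < nrm d r k := by
  have h1 := nrm_ge h hk
  have hk0 : (1 : ℤ) ≤ k := by exact_mod_cast hk
  nlinarith

theorem nrm_nonneg {d : ℕ} {r : ℤ} (h : Dis d r) (k : ℕ) : 0 ≤ nrm d r k := by
  have h1 := four_nrm h k
  have : (0 : ℤ) ≤ r ^ 2 + d * hgt d r k ^ 2 := by positivity
  omega

/-- the element with a given norm -/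
theorem exists_nrm {d : ℕ} {r : ℤ} (h : Dis d r) {p n : ℕ} (hp : p.Prime) (hn : 4 * (p : ℤ) = r ^ 2 + d * (n : ℤ) ^ 2) :
    ∃ k : ℕ, 1 ≤ k ∧ nrm d r k = p := by
  have hn0 : n ≠ 0 := by
    rintro rfl
    have h1 : (4 : ℤ) * p = r ^ 2 := by rw [hn]; simp
    have h2 : (2 : ℤ) ∣ r := by
      have : (2 : ℤ) ∣ r ^ 2 := ⟨2 * p, by rw [← h1]; ring⟩
      exact Int.prime_two.dvd_of_dvd_pow this
    obtain ⟨s, rfl⟩ := h2
    have h3 : (p : ℤ) = s ^ 2 := by nlinarith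
    have h4 : p = s.natAbs ^ 2 := by
      have : (p : ℤ) = ((s.natAbs ^ 2 : ℕ) : ℤ) := by
        push_cast
        rw [sq_abs, h3]
      exact_mod_cast this
    rw [h4] at hp
    have := Nat.Prime.eq_one_of_pow hp
    omega
  by_cases h4 : 4 ∣ d
  · refine ⟨n, Nat.one_le_iff_ne_zero.2 hn0, ?_⟩
    have h5 := four_nrm h n
    have h6 : hgt d r n = n := by unfold hgt; rw [if_pos h4]
    rw [h6, ← hn] at h5
    omega
  · have hd : d % 4 = 3 := by
      rcases h with h | ⟨h, _, _⟩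
      · exact h
      · omega
    -- the parities of `n` and `r` agree
    have hpar : (n : ℤ) % 2 = r % 2 := by
      obtain ⟨e, he⟩ : ∃ e : ℤ, (d : ℤ) = 4 * e + 3 := ⟨(d : ℤ) / 4, by omega⟩
      rw [he] at hn
      rcases Int.emod_two_eq_zero_or_one r with h1 | h1 <;> rcases Int.emod_two_eq_zero_or_one (n : ℤ) with h2 | h2
      · rw [h1, h2]
      · exfalso
        obtain ⟨s, hs⟩ : ∃ s : ℤ, r = 2 * s := ⟨r / 2, by omega⟩
        obtain ⟨m, hm⟩ : ∃ m : ℤ, (n : ℤ) = 2 * m + 1 := ⟨(n : ℤ) / 2, by omega⟩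
        rw [hs, hm] at hn
        ring_nf at hn
        omega
      · exfalso
        obtain ⟨s, hs⟩ : ∃ s : ℤ, r = 2 * s + 1 := ⟨r / 2, by omega⟩
        obtain ⟨m, hm⟩ : ∃ m : ℤ, (n : ℤ) = 2 * m := ⟨(n : ℤ) / 2, by omega⟩
        rw [hs, hm] at hn
        ring_nf at hn
        omega
      · rw [h1, h2]
    have hρ := Int.emod_two_eq_zero_or_one r
    obtain ⟨k, hk⟩ : ∃ k : ℕ, (n : ℤ) = 2 * k - r % 2 := ⟨((n : ℤ) + r % 2).toNat / 2, by omega⟩
    refine ⟨k, by omega, ?_⟩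
    have h5 := four_nrm h k
    have h6 : hgt d r k = n := by unfold hgt; rw [if_neg h4, hk]
    rw [h6, ← hn] at h5
    omega

theorem cA_pos {d : ℕ} {r : ℤ} (h : Dis d r) : 0 < cA d := by
  have := dis_pos h
  by_cases h4 : 4 ∣ d
  · have h1 := cA_even h4
    omega
  · unfold cA
    rw [if_neg h4]
    omega

/-- the discriminant is negative -/
theorem disc_neg {d : ℕ} {r : ℤ} (h : Dis d r) (hr : r ≠ 0) : cB d r ^ 2 < 4 * cA d * cC d r := by
  have hd : (3 : ℤ) ≤ d := by exact_mod_cast dis_pos h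
  have hr2 : 0 < r ^ 2 := by positivity
  by_cases h4 : 4 ∣ d
  · have h1 := cA_even h4
    have h2 := cC_even h h4
    have h3 : cB d r = 0 := by unfold cB; rw [if_pos h4]
    have h5 := cA_pos h
    rw [h3]
    have h6 : 4 * cA d * cC d r = cA d * r ^ 2 := by rw [← h2]; ring
    rw [h6]
    have := mul_pos h5 hr2
    linarith
  · have h1 : cA d = d := by unfold cA; rw [if_neg h4]
    have h2 := four_cC h h4
    have h3 : cB d r = -(d * (r % 2)) := by unfold cB; rw [if_neg h4]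
    have h5 := sq_mod_two r
    rw [h3, h1]
    have h6 : 4 * (d : ℤ) * cC d r = d * (r ^ 2 + d * (r % 2)) := by rw [← h2]; ring
    rw [h6]
    have h7 : (-((d : ℤ) * (r % 2))) ^ 2 = d ^ 2 * (r % 2) := by
      have : (-((d : ℤ) * (r % 2))) ^ 2 = d ^ 2 * (r % 2) ^ 2 := by ring
      rw [this, h5]
    rw [h7]
    have := mul_pos (show (0 : ℤ) < d by linarith) hr2
    nlinarith

theorem pol_natDegree {d : ℕ} {r : ℤ} (h : Dis d r) : (pol d r).natDegree = 2 :=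
  natDegree_quadratic (cA_pos h).ne'

theorem pol_leading {d : ℕ} {r : ℤ} (h : Dis d r) : (pol d r).leadingCoeff = cA d :=
  leadingCoeff_quadratic (cA_pos h).ne'

/-- the polynomial is irreducible if it has no fixed prime divisor -/
theorem pol_irreducible {d : ℕ} {r : ℤ} (h : Dis d r) (hr : r ≠ 0)
    (hfix : ∀ l : ℕ, l.Prime → ∃ k : ℕ, ¬ (l : ℤ) ∣ nrm d r k) : Irreducible (pol d r) := by
  have hprim : (pol d r).IsPrimitive := by
    intro u hu
    by_contra hcon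
    have hu1 : u.natAbs ≠ 1 := fun h1 => hcon (Int.isUnit_iff_natAbs_eq.2 h1)
    obtain ⟨l, hl, hlu⟩ := Nat.exists_prime_and_dvd hu1
    obtain ⟨k, hk⟩ := hfix l hl
    apply hk
    rw [← eval_pol h]
    obtain ⟨g, hg⟩ := hu
    rw [hg, eval_mul, eval_C]
    exact dvd_mul_of_dvd_left (Int.natCast_dvd.2 hlu) _
  rw [IsPrimitive.Int.irreducible_iff_irreducible_map_cast hprim]
  have hdeg : ((pol d r).map (Int.castRingHom ℚ)).natDegree = 2 := by
    rw [natDegree_map_eq_of_injective (Int.castRingHom ℚ).injective_int, pol_natDegree h]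
  apply irreducible_of_degree_le_three_of_not_isRoot
  · rw [hdeg, mem_Icc]
    norm_num
  · intro x hx
    have h1 : ((pol d r).map (Int.castRingHom ℚ)).eval x = (cA d : ℚ) * x ^ 2 + (cB d r : ℚ) * x + (cC d r : ℚ) := by
      unfold pol
      simp
    rw [IsRoot.def, h1] at hx
    have h2 : ((cB d r : ℤ) : ℚ) ^ 2 < 4 * (cA d : ℚ) * (cC d r : ℚ) := by exact_mod_cast disc_neg h hr
    have h3 : (2 * (cA d : ℚ) * x + (cB d r : ℚ)) ^ 2 = (cB d r : ℚ) ^ 2 - 4 * (cA d : ℚ) * (cC d r : ℚ) := by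
      linear_combination 4 * (cA d : ℚ) * hx
    have h4 := sq_nonneg (2 * (cA d : ℚ) * x + (cB d r : ℚ))
    rw [h3] at h4
    linarith

end Pool.Agent.H90.CMT
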