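import Pool.Agent.H90.CMT.Sums

/-!
# The traces of Frobenius of the curves `y² = x³ + A x` and `y² = x³ + B`
-/

set_option autoImplicit false

namespace Pool.Agent.H90.CMT

open Finset

/-- the number of the points modulo `p`, except the point at infinity -/
noncomputable def pts (W : WeierstrassCurve ℤ) (p : ℕ) : ℕ :=
  Nat.card {xy : ZMod p × ZMod p // (W.map (Int.castRingHom (ZMod p))).toAffine.Equation xy.1 xy.2}

theorem pts_eq {p : ℕ} [hF : Fact p.Prime] (h2 : p ≠ 2) (A B : ℤ) :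
    ((pts ⟨0, 0, 0, A, B⟩ p : ℕ) : ℤ) = p + ∑ x : ZMod p, qc p (x ^ 3 + (A : ZMod p) * x + (B : ZMod p)) := by
  classical
  have hcard : pts ⟨0, 0, 0, A, B⟩ p =
      ∑ x : ZMod p, ((univ : Finset (ZMod p)).filter fun y => y ^ 2 = x ^ 3 + (A : ZMod p) * x + (B : ZMod p)).card := by
    unfold pts
    rw [← Finset.card_sigma, Nat.card_eq_fintype_card, ← Fintype.card_coe]
    apply Fintype.card_congr
    refine ⟨fun q => ⟨⟨q.1.1, q.1.2⟩, ?_⟩, fun q => ⟨(q.1.1, q.1.2), ?_⟩, ?_, ?_⟩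
    · have := q.2
      rw [WeierstrassCurve.Affine.equation_iff] at this
      simp only [WeierstrassCurve.map_a₁, WeierstrassCurve.map_a₂, WeierstrassCurve.map_a₃,
        WeierstrassCurve.map_a₄, WeierstrassCurve.map_a₆] at this
      simp only [mem_sigma, mem_univ, mem_filter, true_and]
      simp at this
      linear_combination this
    · have := q.2
      simp only [mem_sigma, mem_univ, mem_filter, true_and] at this
      rw [WeierstrassCurve.Affine.equation_iff]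
      simp only [WeierstrassCurve.map_a₁, WeierstrassCurve.map_a₂, WeierstrassCurve.map_a₃,
        WeierstrassCurve.map_a₄, WeierstrassCurve.map_a₆]
      simp
      linear_combination this
    · intro q; rfl
    · intro q; rfl
  rw [hcard]
  push_cast
  have hfib : ∀ x : ZMod p, (((univ : Finset (ZMod p)).filter fun y =>
      y ^ 2 = x ^ 3 + (A : ZMod p) * x + (B : ZMod p)).card : ℤ) =
      qc p (x ^ 3 + (A : ZMod p) * x + (B : ZMod p)) + 1 := by
    intro x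
    rw [← quadraticChar_card_sqrts (rc h2) (x ^ 3 + (A : ZMod p) * x + (B : ZMod p))]
    congr 2
    ext y
    simp
  rw [sum_congr rfl (fun x _ => hfib x), sum_add_distrib]
  simp [ZMod.card]
  ring

/-- `4 p = a_p² + 4 n²` for the curves `y² = x³ + A x` -/
theorem norm_four (A : ℤ) {p : ℕ} (hp : p.Prime) (hΔ : ¬ (p : ℤ) ∣ (⟨0, 0, 0, A, 0⟩ : WeierstrassCurve ℤ).Δ)
    (ht : (p : ℤ) - pts ⟨0, 0, 0, A, 0⟩ p ≠ 0) :
    ∃ n : ℕ, 4 * (p : ℤ) = ((p : ℤ) - pts ⟨0, 0, 0, A, 0⟩ p) ^ 2 + 4 * (n : ℤ) ^ 2 := by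
  haveI : Fact p.Prime := ⟨hp⟩
  have hD : (⟨0, 0, 0, A, 0⟩ : WeierstrassCurve ℤ).Δ = -64 * A ^ 3 := by
    simp only [WeierstrassCurve.Δ, WeierstrassCurve.b₂, WeierstrassCurve.b₄, WeierstrassCurve.b₆, WeierstrassCurve.b₈]
    ring
  rw [hD] at hΔ
  have h2 : p ≠ 2 := by
    rintro rfl
    apply hΔ
    exact ⟨-32 * A ^ 3, by push_cast; ring⟩
  have hA : (A : ZMod p) ≠ 0 := by
    intro h
    rw [ZMod.intCast_zmod_eq_zero_iff_dvd] at h
    exact hΔ (dvd_mul_of_dvd_right (dvd_pow h (by norm_num)) _)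
  have htr : (p : ℤ) - pts ⟨0, 0, 0, A, 0⟩ p = -SA p (A : ZMod p) := by
    rw [pts_eq h2]
    unfold SA
    simp only [Int.cast_zero, add_zero]
    ring
  rw [htr] at ht ⊢
  rcases quadraticChar_dichotomy (F := ZMod p) (a := -1) (neg_ne_zero.2 one_ne_zero) with h | h
  · obtain ⟨n, hn⟩ := quadraticChar_exists_neg_one (rc (p := p) h2)
    have h3 := SA_main h2 h hA hn
    obtain ⟨m, hm⟩ := SA_even h2 h (n * (A : ZMod p))
    refine ⟨m.natAbs, ?_⟩
    rw [← h3, hm, Int.natCast_natAbs, sq_abs]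
    ring
  · exact absurd (SA_zero h (A : ZMod p)) (fun h5 => ht (by rw [h5]; ring))

/-- `4 p = a_p² + 3 n²` for the curves `y² = x³ + B` -/
theorem norm_three (B : ℤ) {p : ℕ} (hp : p.Prime) (hΔ : ¬ (p : ℤ) ∣ (⟨0, 0, 0, 0, B⟩ : WeierstrassCurve ℤ).Δ)
    (ht : (p : ℤ) - pts ⟨0, 0, 0, 0, B⟩ p ≠ 0) :
    ∃ n : ℕ, 4 * (p : ℤ) = ((p : ℤ) - pts ⟨0, 0, 0, 0, B⟩ p) ^ 2 + 3 * (n : ℤ) ^ 2 := by
  haveI : Fact p.Prime := ⟨hp⟩
  have hD : (⟨0, 0, 0, 0, B⟩ : WeierstrassCurve ℤ).Δ = -432 * B ^ 2 := by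
    simp only [WeierstrassCurve.Δ, WeierstrassCurve.b₂, WeierstrassCurve.b₄, WeierstrassCurve.b₆, WeierstrassCurve.b₈]
    ring
  rw [hD] at hΔ
  have h2 : p ≠ 2 := by
    rintro rfl
    apply hΔ
    exact ⟨-216 * B ^ 2, by push_cast; ring⟩
  have hB : (B : ZMod p) ≠ 0 := by
    intro h
    rw [ZMod.intCast_zmod_eq_zero_iff_dvd] at h
    exact hΔ (dvd_mul_of_dvd_right (dvd_pow h (by norm_num)) _)
  have htr : (p : ℤ) - pts ⟨0, 0, 0, 0, B⟩ p = -TB p (B : ZMod p) := by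
    rw [pts_eq h2]
    unfold TB
    simp only [Int.cast_zero, zero_mul, add_zero]
    have : ∀ x : ZMod p, qc p (x ^ 3 + (B : ZMod p)) = qc p ((B : ZMod p) + x ^ 3) := fun x => by rw [add_comm]
    rw [sum_congr rfl (fun x _ => this x)]
    ring
  rw [htr] at ht ⊢
  by_cases h3 : 3 ∣ p - 1
  · obtain ⟨b, hb⟩ := TB_main h2 h3 hB
    refine ⟨b.natAbs, ?_⟩
    rw [hb, Int.natCast_natAbs, sq_abs]
    ring
  · exact absurd (TB_zero h2 h3 (B : ZMod p)) (fun h5 => ht (by rw [h5]; ring))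

end Pool.Agent.H90.CMT
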