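import Mathlib

/-!
# Character sums of the curves `y² = x³ + A x` and `y² = x³ + B`
-/

set_option autoImplicit false

namespace Pool.Agent.H90.CMT

open Finset

variable {p : ℕ} [hF : Fact p.Prime]

/-- the quadratic character -/
abbrev qc (p : ℕ) [Fact p.Prime] : MulChar (ZMod p) ℤ := quadraticChar (ZMod p)

theorem rc (h2 : p ≠ 2) : ringChar (ZMod p) ≠ 2 := by
  rw [ZMod.ringChar_zmod_n]
  exact h2

theorem qc_sq {a : ZMod p} (ha : a ≠ 0) : qc p (a ^ 2) = 1 := quadraticChar_sq_one' ha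

theorem qc_mul_self {a : ZMod p} (ha : a ≠ 0) : qc p a * qc p a = 1 := by
  rw [← sq]
  exact quadraticChar_sq_one ha

/-- `∑ χ((t + a)(t + b)) = -1` for `a ≠ b` -/
theorem sum_two (h2 : p ≠ 2) {a b : ZMod p} (hab : a ≠ b) :
    ∑ t : ZMod p, qc p ((t + a) * (t + b)) = -1 := by
  have hd : a - b ≠ 0 := sub_ne_zero.2 hab
  have h1 := jacobiSum_nontrivial_inv (quadraticChar_ne_one (F := ZMod p) (rc h2))
  rw [(quadraticChar_isQuadratic (F := ZMod p)).inv] at h1
  unfold jacobiSum at h1
  have h3 : ∑ t : ZMod p, qc p ((t + a) * (t + b)) =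
      ∑ u : ZMod p, qc p (-1) * (qc p u * qc p (1 - u)) := by
    symm
    refine Finset.sum_bij' (fun u _ => (a - b) * u - a) (fun t _ => (t + a) / (a - b)) ?_ ?_ ?_ ?_ ?_
    · intro u _; exact mem_univ _
    · intro u _; exact mem_univ _
    · intro u _
      field_simp
      ring
    · intro t _
      field_simp
      ring
    · intro u _
      have e : ((a - b) * u - a + a) * ((a - b) * u - a + b) = (a - b) ^ 2 * ((-1) * (u * (1 - u))) := by ring
      rw [e, map_mul, qc_sq hd, one_mul, map_mul, map_mul]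
  rw [h3, ← mul_sum, h1]
  have h4 : qc p (-1) * qc p (-1) = 1 := qc_mul_self (neg_ne_zero.2 one_ne_zero)
  linarith

theorem sum_one (a : ZMod p) :
    ∑ t : ZMod p, qc p ((t + a) * (t + a)) = (p : ℤ) - 1 := by
  classical
  have h1 : ∀ t : ZMod p, qc p ((t + a) * (t + a)) = 1 - (if t = -a then 1 else 0) := by
    intro t
    by_cases h : t = -a
    · rw [if_pos h, h]; simp
    · rw [if_neg h, ← sq, qc_sq (fun h' => h (eq_neg_of_add_eq_zero_left h'))]; simp
  rw [sum_congr rfl (fun t _ => h1 t), sum_sub_distrib]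
  simp [ZMod.card]

/-- the second moment of `A ↦ ∑_x w(x) χ(A + h(x))` -/
theorem second_moment (h2 : p ≠ 2) (w : ZMod p → ℤ) (h : ZMod p → ZMod p) :
    ∑ A : ZMod p, (∑ x : ZMod p, w x * qc p (A + h x)) ^ 2 =
      p * (∑ x : ZMod p, ∑ y : ZMod p, if h x = h y then w x * w y else 0) - (∑ x : ZMod p, w x) ^ 2 := by
  classical
  have h1 : ∀ A : ZMod p, (∑ x : ZMod p, w x * qc p (A + h x)) ^ 2 =
      ∑ x : ZMod p, ∑ y : ZMod p, w x * w y * qc p ((A + h x) * (A + h y)) := by
    intro A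
    rw [sq, sum_mul_sum]
    apply sum_congr rfl
    intro x _
    apply sum_congr rfl
    intro y _
    rw [map_mul]
    ring
  rw [sum_congr rfl (fun A _ => h1 A), sum_comm]
  have h3 : ∀ x : ZMod p, ∑ A : ZMod p, ∑ y : ZMod p, w x * w y * qc p ((A + h x) * (A + h y)) =
      ∑ y : ZMod p, (p * (if h x = h y then w x * w y else 0) - w x * w y) := by
    intro x
    rw [sum_comm]
    apply sum_congr rfl
    intro y _
    rw [← mul_sum]
    split_ifs with hxy
    · rw [hxy, sum_one]
      ring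
    · rw [sum_two h2 hxy]
      ring
  rw [sum_congr rfl (fun x _ => h3 x)]
  simp only [sum_sub_distrib]
  have h5 : ∑ x : ZMod p, ∑ y : ZMod p, w x * w y = (∑ x : ZMod p, w x) ^ 2 := by
    rw [sq, sum_mul_sum]
  rw [h5]
  congr 1
  rw [mul_sum]
  apply sum_congr rfl
  intro x _
  rw [mul_sum]

/-! ### the curves `y² = x³ + A x` -/

/-- the sum `∑ χ(x³ + A x)` -/
def SA (p : ℕ) [Fact p.Prime] (A : ZMod p) : ℤ := ∑ x : ZMod p, qc p (x ^ 3 + A * x)

theorem SA_eq (A : ZMod p) : SA p A = ∑ x : ZMod p, qc p x * qc p (A + x ^ 2) := by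
  unfold SA
  apply sum_congr rfl
  intro x _
  rw [← map_mul]
  congr 1
  ring

theorem SA_scale (A : ZMod p) {t : ZMod p} (ht : t ≠ 0) : SA p (A * t ^ 2) = qc p t * SA p A := by
  unfold SA
  rw [mul_sum]
  symm
  refine Finset.sum_bij' (fun u _ => t * u) (fun v _ => t⁻¹ * v) ?_ ?_ ?_ ?_ ?_
  · intro u _; exact mem_univ _
  · intro u _; exact mem_univ _
  · intro u _
    field_simp
  · intro u _
    field_simp
  · intro u _
    have e : (t * u) ^ 3 + A * t ^ 2 * (t * u) = t ^ 2 * (t * (u ^ 3 + A * u)) := by ring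
    rw [e, map_mul, qc_sq ht, one_mul, map_mul]

theorem neg_ne (h2 : p ≠ 2) {x : ZMod p} (hx : x ≠ 0) : -x ≠ x := by
  intro h
  have h3 : (2 : ZMod p) * x = 0 := by linear_combination -h
  rcases mul_eq_zero.1 h3 with h4 | h4
  · have h5 : ((2 : ℕ) : ZMod p) = 0 := by exact_mod_cast h4
    rw [ZMod.natCast_eq_zero_iff] at h5
    exact h2 ((Nat.prime_dvd_prime_iff_eq hF.out Nat.prime_two).1 h5)
  · exact hx h4

/-- `S(A)` is zero if `-1` is not a square -/
theorem SA_zero (h : qc p (-1) = -1) (A : ZMod p) : SA p A = 0 := by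
  have h1 : SA p A = -SA p A := by
    conv_lhs => unfold SA
    unfold SA
    rw [← sum_neg_distrib]
    refine Finset.sum_bij' (fun u _ => -u) (fun v _ => -v) ?_ ?_ ?_ ?_ ?_
    · intro u _; exact mem_univ _
    · intro u _; exact mem_univ _
    · intro u _; simp
    · intro u _; simp
    · intro u _
      have e : (-u) ^ 3 + A * (-u) = -1 * (u ^ 3 + A * u) := by ring
      rw [e, map_mul, h]
      ring
  linarith

/-- `S(A)` is even if `-1` is a square -/
theorem SA_even (h2 : p ≠ 2) (h : qc p (-1) = 1) (A : ZMod p) : Even (SA p A) := by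
  have h1 : ((SA p A : ℤ) : ZMod 2) = 0 := by
    unfold SA
    push_cast
    refine Finset.sum_involution (fun u _ => -u) ?_ ?_ (fun u _ => mem_univ _) (fun u _ => neg_neg u)
    · intro u _
      have e : (-u) ^ 3 + A * (-u) = -1 * (u ^ 3 + A * u) := by ring
      rw [e, map_mul, h, one_mul, CharTwo.add_self_eq_zero]
    · intro u _ hu
      apply neg_ne h2
      rintro rfl
      apply hu
      simp
  rw [ZMod.intCast_zmod_eq_zero_iff_dvd] at h1
  exact even_iff_two_dvd.2 (by exact_mod_cast h1)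

theorem SA_at_zero (h2 : p ≠ 2) : SA p 0 = 0 := by
  have h1 : SA p 0 = ∑ x : ZMod p, qc p x := by
    rw [SA_eq]
    apply sum_congr rfl
    intro x _
    by_cases hx : x = 0
    · rw [hx]; simp
    · rw [zero_add, qc_sq hx, mul_one]
  rw [h1, quadraticChar_sum_zero (rc h2)]

/-- the second moment -/
theorem SA_moment (h2 : p ≠ 2) (h : qc p (-1) = 1) : ∑ A : ZMod p, SA p A ^ 2 = 2 * p * (p - 1) := by
  classical
  have h1 : ∀ A : ZMod p, SA p A ^ 2 = (∑ x : ZMod p, qc p x * qc p (A + x ^ 2)) ^ 2 := by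
    intro A
    rw [SA_eq]
  rw [sum_congr rfl (fun A _ => h1 A), second_moment h2 (fun x => qc p x) (fun x => x ^ 2),
    quadraticChar_sum_zero (rc h2)]
  have h3 : ∀ x : ZMod p, (∑ y : ZMod p, if x ^ 2 = y ^ 2 then qc p x * qc p y else 0) =
      2 * (1 - (if x = 0 then 1 else 0)) := by
    intro x
    by_cases hx : x = 0
    · subst hx
      simp
    · rw [if_neg hx]
      have h4 : ∀ y : ZMod p, (if x ^ 2 = y ^ 2 then qc p x * qc p y else 0) =
          (if y = x then 1 else 0) + (if y = -x then 1 else 0) := by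
        intro y
        by_cases h5 : x ^ 2 = y ^ 2
        · rw [if_pos h5]
          rcases sq_eq_sq_iff_eq_or_eq_neg.1 h5.symm with h6 | h6
          · rw [if_pos h6, h6, qc_mul_self hx, if_neg (fun h7 => neg_ne h2 hx h7.symm)]
            rfl
          · rw [if_pos h6, h6, if_neg (neg_ne h2 hx)]
            have e : (-x : ZMod p) = -1 * x := by ring
            rw [e, map_mul, h, one_mul, qc_mul_self hx]
            rfl
        · rw [if_neg h5, if_neg (fun h6 => h5 (by rw [h6])), if_neg (fun h6 => h5 (by rw [h6]; ring))]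
          rfl
      rw [sum_congr rfl (fun y _ => h4 y), sum_add_distrib]
      simp
  rw [sum_congr rfl (fun x _ => h3 x), ← mul_sum, sum_sub_distrib]
  simp [ZMod.card]
  ring

/-- **`S(A)² + S(n A)² = 4 p`** for a nonresidue `n` -/
theorem SA_main (h2 : p ≠ 2) (h : qc p (-1) = 1) {A n : ZMod p} (hA : A ≠ 0) (hn : qc p n = -1) :
    SA p A ^ 2 + SA p (n * A) ^ 2 = 4 * p := by
  classical
  have hn0 : n ≠ 0 := by
    rintro rfl
    simp at hn
  have h1 : ∀ B : ZMod p, 2 * SA p B ^ 2 = (if B = 0 then 0 else (SA p A ^ 2 + SA p (n * A) ^ 2)) +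
      qc p B * (qc p A * (SA p A ^ 2 - SA p (n * A) ^ 2)) := by
    intro B
    by_cases hB : B = 0
    · rw [if_pos hB, hB, SA_at_zero h2]
      simp
    · rw [if_neg hB]
      rcases quadraticChar_dichotomy (F := ZMod p) (a := B * A⁻¹) (mul_ne_zero hB (inv_ne_zero hA)) with h3 | h3
      · obtain ⟨t, ht⟩ := (quadraticChar_one_iff_isSquare (mul_ne_zero hB (inv_ne_zero hA))).1 h3
        have ht0 : t ≠ 0 := by
          rintro rfl
          exact (mul_ne_zero hB (inv_ne_zero hA)) (by rw [ht]; ring)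
        have hBt : B = A * t ^ 2 := by
          have : B * A⁻¹ * A = t * t * A := by rw [ht]
          rw [mul_assoc, inv_mul_cancel₀ hA, mul_one] at this
          rw [this]; ring
        rw [hBt, SA_scale A ht0, map_mul, qc_sq ht0, mul_one]
        have e1 := qc_mul_self ht0
        have e2 := qc_mul_self hA
        calc 2 * (qc p t * SA p A) ^ 2 = 2 * (qc p t * qc p t) * SA p A ^ 2 := by ring
          _ = 2 * SA p A ^ 2 := by rw [e1]; ring
          _ = SA p A ^ 2 + SA p (n * A) ^ 2 + (qc p A * qc p A) * (SA p A ^ 2 - SA p (n * A) ^ 2) := by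
            rw [e2]; ring
          _ = _ := by ring
      · have h4 : qc p (B * A⁻¹ * n⁻¹) = 1 := by
          rw [map_mul]
          have h5 : qc p (n⁻¹) = -1 := by
            have h6 : qc p (n⁻¹) * qc p n = 1 := by
              rw [← map_mul, inv_mul_cancel₀ hn0, map_one]
            rw [hn] at h6
            linarith
          have h3' : qc p (B * A⁻¹) = -1 := h3
          rw [h5, h3']
          norm_num
        have hne : B * A⁻¹ * n⁻¹ ≠ 0 := mul_ne_zero (mul_ne_zero hB (inv_ne_zero hA)) (inv_ne_zero hn0)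
        obtain ⟨t, ht⟩ := (quadraticChar_one_iff_isSquare hne).1 h4
        have ht0 : t ≠ 0 := by
          rintro rfl
          exact hne (by rw [ht]; ring)
        have hBt : B = (n * A) * t ^ 2 := by
          have : B * A⁻¹ * n⁻¹ * (n * A) = t * t * (n * A) := by rw [ht]
          have e : B * A⁻¹ * n⁻¹ * (n * A) = B := by field_simp
          rw [e] at this
          rw [this]; ring
        rw [hBt, SA_scale (n * A) ht0, map_mul, qc_sq ht0, mul_one, map_mul, hn]
        have e1 := qc_mul_self ht0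
        have e2 := qc_mul_self hA
        calc 2 * (qc p t * SA p (n * A)) ^ 2 = 2 * (qc p t * qc p t) * SA p (n * A) ^ 2 := by ring
          _ = 2 * SA p (n * A) ^ 2 := by rw [e1]; ring
          _ = SA p A ^ 2 + SA p (n * A) ^ 2 - (qc p A * qc p A) * (SA p A ^ 2 - SA p (n * A) ^ 2) := by
            rw [e2]; ring
          _ = _ := by ring
  have h3 : 2 * ∑ B : ZMod p, SA p B ^ 2 = ((p : ℤ) - 1) * (SA p A ^ 2 + SA p (n * A) ^ 2) := by
    rw [mul_sum, sum_congr rfl (fun B _ => h1 B), sum_add_distrib, ← sum_mul, quadraticChar_sum_zero (rc h2)]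
    have h4 : ∀ B : ZMod p, (if B = 0 then (0 : ℤ) else (SA p A ^ 2 + SA p (n * A) ^ 2)) =
        (SA p A ^ 2 + SA p (n * A) ^ 2) - (if B = 0 then (SA p A ^ 2 + SA p (n * A) ^ 2) else 0) := by
      intro B
      split_ifs <;> ring
    rw [sum_congr rfl (fun B _ => h4 B), sum_sub_distrib]
    simp [ZMod.card]
    ring
  rw [SA_moment h2 h] at h3
  have hp1 : ((p : ℤ) - 1) ≠ 0 := by
    have := hF.out.one_lt
    omega
  have h4 : ((p : ℤ) - 1) * (SA p A ^ 2 + SA p (n * A) ^ 2) = ((p : ℤ) - 1) * (4 * p) := by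
    rw [← h3]; ring
  exact mul_left_cancel₀ hp1 h4

/-! ### the curves `y² = x³ + B` -/

/-- the sum `∑ χ(x³ + B)` -/
def TB (p : ℕ) [Fact p.Prime] (B : ZMod p) : ℤ := ∑ x : ZMod p, qc p (B + x ^ 3)

theorem TB_scale (B : ZMod p) {t : ZMod p} (ht : t ≠ 0) : TB p (B * t ^ 3) = qc p t * TB p B := by
  unfold TB
  rw [mul_sum]
  symm
  refine Finset.sum_bij' (fun u _ => t * u) (fun v _ => t⁻¹ * v) ?_ ?_ ?_ ?_ ?_
  · intro u _; exact mem_univ _
  · intro u _; exact mem_univ _
  · intro u _
    field_simp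
  · intro u _
    field_simp
  · intro u _
    have e : B * t ^ 3 + (t * u) ^ 3 = t ^ 2 * (t * (B + u ^ 3)) := by ring
    rw [e, map_mul, qc_sq ht, one_mul, map_mul]

/-- `∑_t F(t²) = ∑_s (1 + χ(s)) F(s)` -/
theorem sum_squares (h2 : p ≠ 2) (F : ZMod p → ℤ) :
    ∑ t : ZMod p, F (t ^ 2) = ∑ s : ZMod p, (1 + qc p s) * F s := by
  classical
  have h1 : ∑ t : ZMod p, F (t ^ 2) = ∑ s : ZMod p, ∑ t ∈ univ.filter (fun t : ZMod p => t ^ 2 = s), F (t ^ 2) :=
    (sum_fiberwise (s := univ) (g := fun t : ZMod p => t ^ 2) (f := fun t => F (t ^ 2))).symm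
  rw [h1]
  apply sum_congr rfl
  intro s _
  have h3 : ∑ t ∈ univ.filter (fun t : ZMod p => t ^ 2 = s), F (t ^ 2) =
      ∑ t ∈ univ.filter (fun t : ZMod p => t ^ 2 = s), F s := by
    apply sum_congr rfl
    intro t ht
    rw [mem_filter] at ht
    rw [ht.2]
  rw [h3, sum_const, nsmul_eq_mul]
  have h4 := quadraticChar_card_sqrts (F := ZMod p) (rc h2) s
  have h5 : {x : ZMod p | x ^ 2 = s}.toFinset = univ.filter (fun t : ZMod p => t ^ 2 = s) := by
    ext x; simp
  rw [h5] at h4
  rw [h4]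
  ring

/-- `∑_t χ(B t² + c) = -χ(B)` for `B, c ≠ 0` -/
theorem sum_quadratic (h2 : p ≠ 2) {B c : ZMod p} (hB : B ≠ 0) (hc : c ≠ 0) :
    ∑ t : ZMod p, qc p (B * t ^ 2 + c) = -qc p B := by
  rw [sum_squares h2 (fun s => qc p (B * s + c))]
  have h1 : ∀ s : ZMod p, (1 + qc p s) * qc p (B * s + c) =
      qc p (B * s + c) + qc p B * qc p ((s + 0) * (s + c * B⁻¹)) := by
    intro s
    have e : B * s + c = B * (s + c * B⁻¹) := by field_simp
    rw [e, map_mul, add_zero, map_mul]
    ring
  rw [sum_congr rfl (fun s _ => h1 s), sum_add_distrib, ← mul_sum,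
    sum_two h2 (a := 0) (b := c * B⁻¹) (mul_ne_zero hc (inv_ne_zero hB)).symm]
  have h3 : ∑ s : ZMod p, qc p (B * s + c) = ∑ s : ZMod p, qc p s := by
    refine Finset.sum_bij' (fun u _ => B * u + c) (fun v _ => B⁻¹ * (v - c)) ?_ ?_ ?_ ?_ ?_
    · intro u _; exact mem_univ _
    · intro u _; exact mem_univ _
    · intro u _
      field_simp
      ring
    · intro u _
      field_simp
      ring
    · intro u _; rfl
  rw [h3, quadraticChar_sum_zero (rc h2)]
  ring

theorem TB_at_zero (h2 : p ≠ 2) : TB p 0 = 0 := by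
  have h1 : TB p 0 = ∑ x : ZMod p, qc p x := by
    unfold TB
    apply sum_congr rfl
    intro x _
    by_cases hx : x = 0
    · rw [hx]; simp
    · have e : 0 + x ^ 3 = x ^ 2 * x := by ring
      rw [e, map_mul, qc_sq hx, one_mul]
  rw [h1, quadraticChar_sum_zero (rc h2)]

/-- `∑_t T(B t²) = 0` -/
theorem TB_sum (h2 : p ≠ 2) {B : ZMod p} (hB : B ≠ 0) :
    ∑ t : ZMod p, TB p (B * t ^ 2) = 0 := by
  classical
  unfold TB
  rw [sum_comm]
  have h4 : ∀ x : ZMod p, ∑ t : ZMod p, qc p (B * t ^ 2 + x ^ 3) =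
      if x = 0 then ((p : ℤ) - 1) * qc p B else -qc p B := by
    intro x
    by_cases hx : x = 0
    · rw [if_pos hx, hx]
      have h5 : ∀ t : ZMod p, qc p (B * t ^ 2 + 0 ^ 3) = qc p B * (1 - if t = 0 then 1 else 0) := by
        intro t
        by_cases ht : t = 0
        · rw [ht]; simp
        · have e : B * t ^ 2 + 0 ^ 3 = B * t ^ 2 := by ring
          rw [e, map_mul, qc_sq ht, if_neg ht]
          ring
      rw [sum_congr rfl (fun t _ => h5 t), ← mul_sum, sum_sub_distrib]
      simp [ZMod.card]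
      ring
    · rw [if_neg hx]
      exact sum_quadratic h2 hB (pow_ne_zero 3 hx)
  rw [sum_congr rfl (fun x _ => h4 x)]
  have h6 : ∑ x : ZMod p, (if x = 0 then ((p : ℤ) - 1) * qc p B else -qc p B) =
      ∑ x : ZMod p, (-qc p B + if x = 0 then (p : ℤ) * qc p B else 0) := by
    apply sum_congr rfl
    intro x _
    split_ifs <;> ring
  rw [h6, sum_add_distrib]
  simp [ZMod.card]

/-- `T(B) = 0` if `p ≢ 1` modulo `3` -/
theorem TB_zero (h2 : p ≠ 2) (h3 : ¬ 3 ∣ p - 1) (B : ZMod p) : TB p B = 0 := by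
  have hinj : Function.Injective (fun x : ZMod p => x ^ 3) := by
    intro x y hxy
    have hxy' : x ^ 3 = y ^ 3 := hxy
    by_cases hy : y = 0
    · rw [hy] at hxy' ⊢
      have : x ^ 3 = 0 := by rw [hxy']; ring
      exact pow_eq_zero_iff (n := 3) (by norm_num) |>.1 this
    · have hx : x ≠ 0 := by
        rintro rfl
        have : y ^ 3 = 0 := by rw [← hxy']; ring
        exact hy (pow_eq_zero_iff (n := 3) (by norm_num) |>.1 this)
      have h5 : (x * y⁻¹) ^ 3 = 1 := by
        rw [mul_pow, hxy', ← mul_pow, mul_inv_cancel₀ hy, one_pow]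
      have h6 : (x * y⁻¹) ^ (p - 1) = 1 := ZMod.pow_card_sub_one_eq_one (mul_ne_zero hx (inv_ne_zero hy))
      have h7 : orderOf (x * y⁻¹) ∣ 3 := orderOf_dvd_of_pow_eq_one h5
      have h8 : orderOf (x * y⁻¹) ∣ p - 1 := orderOf_dvd_of_pow_eq_one h6
      rcases (Nat.dvd_prime Nat.prime_three).1 h7 with h9 | h9
      · rw [orderOf_eq_one_iff] at h9
        have : x * y⁻¹ * y = y := by rw [h9, one_mul]
        rwa [mul_assoc, inv_mul_cancel₀ hy, mul_one] at this
      · rw [h9] at h8
        exact absurd h8 h3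
  have hbij : Function.Bijective (fun x : ZMod p => x ^ 3) := (Finite.injective_iff_bijective).1 hinj
  have h4 : TB p B = ∑ y : ZMod p, qc p (B + y) := by
    unfold TB
    exact hbij.sum_comp (fun y => qc p (B + y))
  have h5 : ∑ y : ZMod p, qc p (B + y) = ∑ y : ZMod p, qc p y :=
    Equiv.sum_comp (Equiv.addLeft B) (fun y => qc p y)
  rw [h4, h5, quadraticChar_sum_zero (rc h2)]

/-- a primitive root -/
theorem exists_gen (p : ℕ) [Fact p.Prime] :
    ∃ g : ZMod p, g ≠ 0 ∧ orderOf g = p - 1 ∧ ∀ t : ZMod p, t ≠ 0 → ∃ j : ℕ, t = g ^ j := by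
  obtain ⟨u, hu⟩ := IsCyclic.exists_generator (α := (ZMod p)ˣ)
  refine ⟨(u : ZMod p), u.ne_zero, ?_, ?_⟩
  · rw [orderOf_units, orderOf_eq_card_of_forall_mem_zpowers hu, Nat.card_eq_fintype_card, ZMod.card_units]
  · intro t ht
    obtain ⟨j, hj⟩ := (Submonoid.mem_powers_iff _ _).1 ((mem_powers_iff_mem_zpowers).2 (hu (Units.mk0 t ht)))
    refine ⟨j, ?_⟩
    have := congrArg (fun v : (ZMod p)ˣ => (v : ZMod p)) hj
    simp at this
    exact this.symm

/-- sums of functions invariant under multiplication by cubes -/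
theorem sum_cosets {g : ZMod p} (hg0 : g ≠ 0) (hg : ∀ t : ZMod p, t ≠ 0 → ∃ j : ℕ, t = g ^ j)
    (F : ZMod p → ℤ) (h0 : F 0 = 0) (hF : ∀ t c : ZMod p, c ≠ 0 → F (t * c ^ 3) = F t) :
    3 * ∑ t : ZMod p, F t = ((p : ℤ) - 1) * (F 1 + F g + F (g ^ 2)) := by
  classical
  have e1 : ∑ t : ZMod p, F (g * t) = ∑ t : ZMod p, F t := by
    refine Finset.sum_bij' (fun u _ => g * u) (fun v _ => g⁻¹ * v) ?_ ?_ ?_ ?_ ?_
    · intro u _; exact mem_univ _
    · intro u _; exact mem_univ _
    · intro u _; field_simp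
    · intro u _; field_simp
    · intro u _; rfl
  have e2 : ∑ t : ZMod p, F (g ^ 2 * t) = ∑ t : ZMod p, F t := by
    refine Finset.sum_bij' (fun u _ => g ^ 2 * u) (fun v _ => (g ^ 2)⁻¹ * v) ?_ ?_ ?_ ?_ ?_
    · intro u _; exact mem_univ _
    · intro u _; exact mem_univ _
    · intro u _; field_simp
    · intro u _; field_simp
    · intro u _; rfl
  have h3 : 3 * ∑ t : ZMod p, F t = ∑ t : ZMod p, (F t + F (g * t) + F (g ^ 2 * t)) := by
    rw [sum_add_distrib, sum_add_distrib, e1, e2]
    ring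
  have hg3 : F (g ^ 3) = F 1 := by
    have := hF 1 g hg0
    rwa [one_mul] at this
  have hg4 : F (g ^ 4) = F g := by
    have := hF g g hg0
    rwa [← pow_succ'] at this
  have h4 : ∀ t : ZMod p, F t + F (g * t) + F (g ^ 2 * t) =
      (F 1 + F g + F (g ^ 2)) - (if t = 0 then (F 1 + F g + F (g ^ 2)) else 0) := by
    intro t
    by_cases ht : t = 0
    · rw [if_pos ht, ht, mul_zero, mul_zero, h0]
      ring
    · rw [if_neg ht, sub_zero]
      obtain ⟨j, hj⟩ := hg t ht
      have hj2 : t = g ^ (j % 3) * (g ^ (j / 3)) ^ 3 := by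
        rw [hj, ← pow_mul, ← pow_add]
        congr 1
        omega
      have hc : g ^ (j / 3) ≠ 0 := pow_ne_zero _ hg0
      have i1 : F t = F (g ^ (j % 3)) := by rw [hj2, hF _ _ hc]
      have i2 : F (g * t) = F (g ^ (j % 3 + 1)) := by
        rw [hj2, ← mul_assoc, hF _ _ hc]
        congr 1
        ring
      have i3 : F (g ^ 2 * t) = F (g ^ (j % 3 + 2)) := by
        rw [hj2, ← mul_assoc, hF _ _ hc]
        congr 1
        ring
      rw [i1, i2, i3]
      have h5 : j % 3 < 3 := Nat.mod_lt _ (by norm_num)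
      interval_cases j % 3
      · simp
      · simp [hg3]
        ring
      · simp [hg3, hg4]
        ring
  rw [h3, sum_congr rfl (fun t _ => h4 t), sum_sub_distrib]
  simp [ZMod.card]
  ring

/-- the second moment of `T` -/
theorem TB_moment (h2 : p ≠ 2) (h3 : 3 ∣ p - 1) : ∑ B : ZMod p, TB p B ^ 2 = 2 * p * (p - 1) := by
  classical
  obtain ⟨g, hg0, hord, hg⟩ := exists_gen p
  obtain ⟨m, hm⟩ := h3
  have hp := hF.out.two_le
  have hm0 : 0 < m := by omega
  set w : ZMod p := g ^ m with hw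
  have hw3 : w ^ 3 = 1 := by
    rw [hw, ← pow_mul, mul_comm, ← hm, ← hord, pow_orderOf_eq_one]
  have hw1 : w ≠ 1 := by
    intro h
    have h5 : orderOf g ∣ m := orderOf_dvd_of_pow_eq_one h
    rw [hord] at h5
    have := Nat.le_of_dvd hm0 h5
    omega
  have hw0 : w ≠ 0 := by
    intro h
    rw [h] at hw3
    norm_num at hw3
  have hww : w ^ 2 ≠ 1 := by
    intro h
    apply hw1
    have : w ^ 3 = w ^ 2 * w := by ring
    rw [hw3, h, one_mul] at this
    exact this.symm
  have hsum : 1 + w + w ^ 2 = 0 := by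
    have h5 : (w - 1) * (1 + w + w ^ 2) = 0 := by
      linear_combination hw3
    rcases mul_eq_zero.1 h5 with h6 | h6
    · exact absurd (sub_eq_zero.1 h6) hw1
    · exact h6
  have h1 : ∀ B : ZMod p, TB p B ^ 2 = (∑ x : ZMod p, (fun _ => (1 : ℤ)) x * qc p (B + x ^ 3)) ^ 2 := by
    intro B
    unfold TB
    simp
  rw [sum_congr rfl (fun B _ => h1 B), second_moment h2 (fun _ => 1) (fun x => x ^ 3)]
  have h4 : ∀ x : ZMod p, (∑ y : ZMod p, if x ^ 3 = y ^ 3 then (1 : ℤ) * 1 else 0) =
      3 - (if x = 0 then 2 else 0) := by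
    intro x
    by_cases hx : x = 0
    · subst hx
      have h5 : ∀ y : ZMod p, (if (0 : ZMod p) ^ 3 = y ^ 3 then (1 : ℤ) * 1 else 0) = if y = 0 then 1 else 0 := by
        intro y
        by_cases hy : y = 0
        · rw [hy]; simp
        · rw [if_neg hy, if_neg]
          intro h
          apply hy
          have : y ^ 3 = 0 := by rw [← h]; ring
          exact pow_eq_zero_iff (n := 3) (by norm_num) |>.1 this
      rw [sum_congr rfl (fun y _ => h5 y)]
      simp
    · rw [if_neg hx]
      have h5 : ∀ y : ZMod p, (if x ^ 3 = y ^ 3 then (1 : ℤ) * 1 else 0) =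
          (if y = x then 1 else 0) + (if y = w * x then 1 else 0) + (if y = w ^ 2 * x then 1 else 0) := by
        intro y
        have n1 : x ≠ w * x := by
          intro h
          apply hw1
          have : (w - 1) * x = 0 := by linear_combination -h
          rcases mul_eq_zero.1 this with h6 | h6
          · exact sub_eq_zero.1 h6
          · exact absurd h6 hx
        have n2 : x ≠ w ^ 2 * x := by
          intro h
          apply hww
          have : (w ^ 2 - 1) * x = 0 := by linear_combination -h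
          rcases mul_eq_zero.1 this with h6 | h6
          · exact sub_eq_zero.1 h6
          · exact absurd h6 hx
        have n3 : w * x ≠ w ^ 2 * x := by
          intro h
          apply hw1
          have : (w - 1) * (w * x) = 0 := by linear_combination -h
          rcases mul_eq_zero.1 this with h6 | h6
          · exact sub_eq_zero.1 h6
          · exact absurd h6 (mul_ne_zero hw0 hx)
        by_cases hxy : x ^ 3 = y ^ 3
        · rw [if_pos hxy]
          have h6 : (y - x) * ((y - w * x) * (y - w ^ 2 * x)) = 0 := by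
            have e : (y - x) * ((y - w * x) * (y - w ^ 2 * x)) =
                y ^ 3 - (1 + w + w ^ 2) * (x * y ^ 2) + (1 + w + w ^ 2) * w * (x ^ 2 * y) - w ^ 3 * x ^ 3 := by ring
            rw [e, hsum, hw3, hxy]
            ring
          rcases mul_eq_zero.1 h6 with h7 | h7
          · have h8 := sub_eq_zero.1 h7
            rw [h8, if_pos rfl, if_neg n1, if_neg n2]
            norm_num
          · rcases mul_eq_zero.1 h7 with h8 | h8
            · have h9 := sub_eq_zero.1 h8
              rw [h9, if_neg n1.symm, if_pos rfl, if_neg n3]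
              norm_num
            · have h9 := sub_eq_zero.1 h8
              rw [h9, if_neg n2.symm, if_neg n3.symm, if_pos rfl]
              norm_num
        · rw [if_neg hxy, if_neg, if_neg, if_neg]
          · norm_num
          · rintro rfl
            apply hxy
            rw [mul_pow, ← pow_mul, mul_comm 2 3, pow_mul, hw3, one_pow, one_mul]
          · rintro rfl
            apply hxy
            rw [mul_pow, hw3, one_mul]
          · rintro rfl
            exact hxy rfl
      rw [sum_congr rfl (fun y _ => h5 y), sum_add_distrib, sum_add_distrib]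
      simp
  rw [sum_congr rfl (fun x _ => h4 x), sum_sub_distrib]
  simp [ZMod.card]
  ring

/-- **`4 p = T(B)² + 3 b²`** -/
theorem TB_main (h2 : p ≠ 2) (h3 : 3 ∣ p - 1) {B : ZMod p} (hB : B ≠ 0) : ∃ b : ℤ, 4 * (p : ℤ) = TB p B ^ 2 + 3 * b ^ 2 := by
  classical
  obtain ⟨g, hg0, hord, hg⟩ := exists_gen p
  have hinv : ∀ t c : ZMod p, c ≠ 0 → TB p (B * (t * c ^ 3) ^ 2) = TB p (B * t ^ 2) := by
    intro t c hc
    have e : B * (t * c ^ 3) ^ 2 = (B * t ^ 2) * (c ^ 2) ^ 3 := by ring
    rw [e, TB_scale _ (pow_ne_zero 2 hc), qc_sq hc, one_mul]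
  have hp1 : ((p : ℤ) - 1) ≠ 0 := by
    have := hF.out.one_lt
    omega
  have hz : TB p (B * 0 ^ 2) = 0 := by
    have e : B * 0 ^ 2 = 0 := by ring
    rw [e, TB_at_zero h2]
  have h4 := sum_cosets hg0 hg (fun t => TB p (B * t ^ 2)) hz hinv
  have h5 := sum_cosets hg0 hg (fun t => TB p (B * t ^ 2) ^ 2) (by rw [hz]; ring)
    (fun t c hc => by rw [hinv t c hc])
  rw [TB_sum h2 hB, mul_zero] at h4
  have h6 : ∑ t : ZMod p, TB p (B * t ^ 2) ^ 2 = 2 * p * (p - 1) := by
    rw [← TB_moment h2 h3]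
    refine Finset.sum_bij' (fun u _ => B * u⁻¹) (fun v _ => B * v⁻¹) ?_ ?_ ?_ ?_ ?_
    · intro u _; exact mem_univ _
    · intro u _; exact mem_univ _
    · intro u _
      by_cases hu : u = 0
      · rw [hu]; simp
      · field_simp
    · intro u _
      by_cases hu : u = 0
      · rw [hu]; simp
      · field_simp
    · intro u _
      by_cases hu : u = 0
      · rw [hu, hz]
        have e : B * (0 : ZMod p)⁻¹ = 0 := by simp
        rw [e, TB_at_zero h2]
      · have e : B * u ^ 2 = (B * u⁻¹) * u ^ 3 := by field_simp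
        rw [e, TB_scale _ hu, mul_pow]
        have := qc_mul_self hu
        rw [sq, this, one_mul]
  rw [h6] at h5
  set u := TB p (B * 1 ^ 2) with hu
  set v := TB p (B * g ^ 2) with hv
  set w := TB p (B * (g ^ 2) ^ 2) with hw
  have h7 : u + v + w = 0 := by
    rcases mul_eq_zero.1 h4.symm with h | h
    · exact absurd h hp1
    · exact h
  have h8 : u ^ 2 + v ^ 2 + w ^ 2 = 6 * p := by
    have h9 : ((p : ℤ) - 1) * (u ^ 2 + v ^ 2 + w ^ 2) = ((p : ℤ) - 1) * (6 * p) := by
      rw [← h5]; ring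
    exact mul_left_cancel₀ hp1 h9
  have hw' : w = -u - v := by linarith
  have h10 : 3 * u ^ 2 + (u + 2 * v) ^ 2 = 12 * p := by
    rw [hw'] at h8
    nlinarith
  have h11 : (3 : ℤ) ∣ (u + 2 * v) ^ 2 := by
    refine ⟨4 * p - u ^ 2, ?_⟩
    linarith
  obtain ⟨b, hb⟩ := Int.Prime.dvd_pow' Nat.prime_three h11
  have hb' : u + 2 * v = 3 * b := by exact_mod_cast hb
  have hu1 : u = TB p B := by
    rw [hu]
    congr 1
    ring
  refine ⟨b, ?_⟩
  rw [hb', hu1] at h10
  linarith

end Pool.Agent.H90.CMT
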